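import Mathlib

namespace Pool.Agent.Helper82.Greedy

open MeasureTheory ProbabilityTheory

/-- A self-avoiding nearest-neighbour path of length `n` from the origin of `ℤ ^ d`. -/
def IsSAW (d n : ℕ) (γ : Fin (n + 1) → (Fin d → ℤ)) : Prop :=
  γ 0 = 0 ∧ Function.Injective γ ∧ ∀ i : Fin n, ∑ j, |γ i.succ j - γ i.castSucc j| = 1

/-- The greedy lattice path weight `M_n` (the origin is not counted). -/
noncomputable def greedy (d : ℕ) (x : (Fin d → ℤ) → ℝ) (n : ℕ) : ℝ :=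
  sSup {s | ∃ γ : Fin (n + 1) → (Fin d → ℤ), IsSAW d n γ ∧ s = ∑ i : Fin n, x (γ i.succ)}

/-- Condition (A+) for a real random variable `Y`. -/
def APlus {Ω : Type*} [MeasurableSpace Ω] (P : Measure Ω) (d : ℕ) (Y : Ω → ℝ) : Prop :=
  ∃ α : ℝ, 0 < α ∧
    ∫⁻ ω, ENNReal.ofReal ((max (Y ω) 0) ^ d *
      (max (Real.log (max (Y ω) 0)) 0) ^ ((d : ℝ) + α)) ∂P < ⊤

/-- Condition (A-) for a real random variable `Y`. -/
def AMinus {Ω : Type*} [MeasurableSpace Ω] (P : Measure Ω) (d : ℕ) (Y : Ω → ℝ) : Prop :=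
  ∫⁻ t in Set.Ioi (0 : ℝ), (P {ω | Y ω < -t}) ^ (2 * d) < ⊤

/-- `X` is a family of i.i.d. real random variables indexed by the vertices of `ℤ ^ d`. -/
def IsIID {Ω : Type*} [MeasurableSpace Ω] (P : Measure Ω) (d : ℕ)
    (X : (Fin d → ℤ) → Ω → ℝ) : Prop :=
  (∀ v, Measurable (X v)) ∧ iIndepFun X P ∧ ∀ v, IdentDistrib (X v) (X 0) P P

/-- `M_n / n` converges to `M` in `L¹`. -/
def ConvergesL1 {Ω : Type*} [MeasurableSpace Ω] (P : Measure Ω) (d : ℕ)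
    (X : (Fin d → ℤ) → Ω → ℝ) (M : ℝ) : Prop :=
  Filter.Tendsto
    (fun n : ℕ => ∫⁻ ω, ENNReal.ofReal |greedy d (fun v => X v ω) n / (n : ℝ) - M| ∂P)
    Filter.atTop (nhds 0)

end Pool.Agent.Helper82.Greedy
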