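import Pool.Agent.Helper82.GreedyDefs

namespace Pool.Agent.Helper82.GreedyOne

open MeasureTheory ProbabilityTheory Filter Set
open scoped ENNReal Topology
open Pool.Agent.Helper82.Greedy

/-- The heavy-tailed map. -/
noncomputable def f (u : ℝ) : ℝ := -(|u| ^ (-(4 / 3) : ℝ))

lemma f_nonpos (u : ℝ) : f u ≤ 0 := by
  unfold f
  have : 0 ≤ |u| ^ (-(4 / 3) : ℝ) := Real.rpow_nonneg (abs_nonneg _) _
  linarith

lemma f_meas : Measurable f := by
  unfold f
  fun_prop

/-- Lebesgue measure on `(0, 1]`. -/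
noncomputable def lam : Measure ℝ := volume.restrict (Ioc 0 1)

instance : IsProbabilityMeasure lam := ⟨by simp [lam]⟩

/-- The law. -/
noncomputable def mu : Measure ℝ := lam.map f

instance : IsProbabilityMeasure mu := Measure.isProbabilityMeasure_map f_meas.aemeasurable

lemma mu_tail (t : ℝ) (ht : 0 < t) : mu {x | x < -t} ≤ ENNReal.ofReal (t ^ (-(3 / 4) : ℝ)) := by
  have hm : MeasurableSet {x : ℝ | x < -t} := measurableSet_Iio
  rw [mu, Measure.map_apply f_meas hm, lam, Measure.restrict_apply (f_meas hm)]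
  have hsub : f ⁻¹' {x | x < -t} ∩ Ioc 0 1 ⊆ Ioc 0 (t ^ (-(3 / 4) : ℝ)) := by
    rintro u ⟨hu, hu0, hu1⟩
    refine ⟨hu0, ?_⟩
    simp only [mem_preimage, mem_ofPred_eq, f, neg_lt_neg_iff] at hu
    rw [abs_of_pos hu0] at hu
    have h1 : t ^ (3 / 4 : ℝ) < u ^ (-1 : ℝ) := by
      have := Real.rpow_lt_rpow ht.le hu (show (0 : ℝ) < 3 / 4 by norm_num)
      rwa [← Real.rpow_mul hu0.le, show (-(4 / 3) * (3 / 4) : ℝ) = -1 by norm_num] at this
    rw [Real.rpow_neg ht.le]
    rw [Real.rpow_neg_one] at h1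
    have h2 : 0 < t ^ (3 / 4 : ℝ) := Real.rpow_pos_of_pos ht _
    exact ((lt_inv_comm₀ h2 hu0).1 h1).le
  calc volume (f ⁻¹' {x | x < -t} ∩ Ioc 0 1) ≤ volume (Ioc 0 (t ^ (-(3 / 4) : ℝ))) :=
        measure_mono hsub
    _ = ENNReal.ofReal (t ^ (-(3 / 4) : ℝ)) := by simp

lemma mu_aminus : ∫⁻ t in Ioi (0 : ℝ), (mu {x | x < -t}) ^ 2 < ⊤ := by
  have hU : Ioi (0 : ℝ) = Ioc 0 1 ∪ Ioi 1 := by
    rw [Ioc_union_Ioi_eq_Ioi zero_le_one]
  rw [hU]
  refine lt_of_le_of_lt (lintegral_union_le _ _ _) ?_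
  refine ENNReal.add_lt_top.2 ⟨?_, ?_⟩
  · calc ∫⁻ t in Ioc (0 : ℝ) 1, (mu {x | x < -t}) ^ 2 ≤ ∫⁻ t in Ioc (0 : ℝ) 1, 1 := by
          refine lintegral_mono fun t => ?_
          exact pow_le_one₀ zero_le prob_le_one
      _ < ⊤ := by simp
  · have hint : IntegrableOn (fun t : ℝ => t ^ (-(3 / 2) : ℝ)) (Ioi 1) :=
      integrableOn_Ioi_rpow_of_lt (by norm_num) one_pos
    calc ∫⁻ t in Ioi (1 : ℝ), (mu {x | x < -t}) ^ 2
        ≤ ∫⁻ t in Ioi (1 : ℝ), ENNReal.ofReal (t ^ (-(3 / 2) : ℝ)) := by
          refine setLIntegral_mono' measurableSet_Ioi fun t ht => ?_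
          have ht0 : (0 : ℝ) < t := lt_trans one_pos ht
          calc (mu {x | x < -t}) ^ 2 ≤ (ENNReal.ofReal (t ^ (-(3 / 4) : ℝ))) ^ 2 := by
                gcongr
                exact mu_tail t ht0
            _ = ENNReal.ofReal (t ^ (-(3 / 2) : ℝ)) := by
                rw [← ENNReal.ofReal_pow (Real.rpow_nonneg ht0.le _), ← Real.rpow_natCast,
                  ← Real.rpow_mul ht0.le]
                norm_num
      _ < ⊤ := hint.lintegral_lt_top

/-- truncation from below -/
noncomputable def g (K : ℝ) (x : ℝ) : ℝ := max (min x 0) (-K)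

lemma g_meas (K : ℝ) : Measurable (g K) := by
  unfold g
  fun_prop

lemma g_bound (K : ℝ) (hK : 0 ≤ K) (x : ℝ) : ‖g K x‖ ≤ K := by
  rw [Real.norm_eq_abs, abs_le]
  constructor
  · exact le_max_right _ _
  · exact max_le ((min_le_right _ _).trans hK) (by linarith)

lemma g_integrable (K : ℝ) (hK : 0 ≤ K) : Integrable (g K) mu :=
  Integrable.of_bound (g_meas K).aestronglyMeasurable K (ae_of_all _ (g_bound K hK))

lemma le_g (K x : ℝ) (hx : x ≤ 0) : x ≤ g K x := by
  unfold g
  rw [min_eq_left hx]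
  exact le_max_left _ _

/-- The truncated means tend to `-∞`. -/
lemma exists_trunc (C : ℝ) : ∃ K : ℝ, 0 ≤ K ∧ ∫ x, g K x ∂mu < -C := by
  -- use δ ∈ (0,1], K = δ ^ (-4/3)
  have hlim : Tendsto (fun δ : ℝ => 3 * (δ ^ (-(1 / 3) : ℝ) - 1)) (𝓝[>] 0) atTop := by
    have h1 : Tendsto (fun δ : ℝ => δ ^ (-(1 / 3) : ℝ)) (𝓝[>] 0) atTop :=
      tendsto_rpow_neg_nhdsGT_zero (by norm_num)
    exact (tendsto_atTop_add_const_right _ (-1) h1).const_mul_atTop (by norm_num : (0:ℝ) < 3)
  have h2 : ∀ᶠ δ in 𝓝[>] (0 : ℝ), C < 3 * (δ ^ (-(1 / 3) : ℝ) - 1) := hlim.eventually_gt_atTop C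
  have h3 : ∀ᶠ δ in 𝓝[>] (0 : ℝ), δ ∈ Ioo (0 : ℝ) 1 := Ioo_mem_nhdsGT one_pos
  obtain ⟨δ, hδ, hδ0, hδ1⟩ := (h2.and h3).exists
  have hK0 : 0 ≤ δ ^ (-(4 / 3) : ℝ) := Real.rpow_nonneg hδ0.le _
  refine ⟨δ ^ (-(4 / 3) : ℝ), hK0, ?_⟩
  set K := δ ^ (-(4 / 3) : ℝ) with hK
  have e1 : ∫ x, g K x ∂mu = ∫ u in Ioc (0 : ℝ) 1, g K (f u) := by
    rw [mu, integral_map f_meas.aemeasurable (g_meas K).aestronglyMeasurable, lam]
  rw [e1]
  have hInt : IntegrableOn (fun u => g K (f u)) (Ioc (0 : ℝ) 1) := by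
    have : IsFiniteMeasure (volume.restrict (Ioc (0 : ℝ) 1)) := by infer_instance
    exact Integrable.of_bound ((g_meas K).comp f_meas).aestronglyMeasurable K
      (ae_of_all _ fun u => g_bound K hK0 _)
  have hsplit : ∫ u in Ioc (0 : ℝ) 1, g K (f u) =
      (∫ u in Ioc (0 : ℝ) δ, g K (f u)) + ∫ u in Ioc δ (1 : ℝ), g K (f u) := by
    rw [← setIntegral_union (Ioc_disjoint_Ioc_of_le le_rfl) measurableSet_Ioc
      (hInt.mono_set (Ioc_subset_Ioc_right hδ1.le)) (hInt.mono_set (Ioc_subset_Ioc_left hδ0.le)),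
      Ioc_union_Ioc_eq_Ioc hδ0.le hδ1.le]
  have hA : ∫ u in Ioc (0 : ℝ) δ, g K (f u) ≤ 0 := by
    refine integral_nonpos fun u => ?_
    exact max_le (min_le_right _ _) (by simpa using hK0)
  have hB : ∫ u in Ioc δ (1 : ℝ), g K (f u) = ∫ u in Ioc δ (1 : ℝ), -(u ^ (-(4 / 3) : ℝ)) := by
    refine setIntegral_congr_fun measurableSet_Ioc fun u hu => ?_
    have hu0 : 0 < u := lt_trans hδ0 hu.1
    simp only [g, f]
    rw [abs_of_pos hu0, min_eq_left (by
      have := Real.rpow_nonneg hu0.le (-(4 / 3) : ℝ)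
      linarith)]
    refine max_eq_left ?_
    rw [neg_le_neg_iff]
    exact Real.rpow_le_rpow_of_nonpos hδ0 hu.1.le (by norm_num)
  have hC : ∫ u in Ioc δ (1 : ℝ), -(u ^ (-(4 / 3) : ℝ)) = -(3 * (δ ^ (-(1 / 3) : ℝ) - 1)) := by
    rw [integral_neg, ← intervalIntegral.integral_of_le hδ1.le, integral_rpow]
    · norm_num
      ring
    · right
      refine ⟨by norm_num, ?_⟩
      rw [uIcc_of_le hδ1.le]
      intro h
      exact absurd h.1 (not_le.2 hδ0)
  rw [hsplit, hB, hC]
  linarith

/-- Classification of one-dimensional self-avoiding paths. -/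
lemma saw_one (n : ℕ) (γ : Fin (n + 1) → (Fin 1 → ℤ)) (h : IsSAW 1 n γ) :
    (∀ i : Fin n, γ i.succ = fun _ => ((i : ℕ) : ℤ) + 1) ∨
    (∀ i : Fin n, γ i.succ = fun _ => -(((i : ℕ) : ℤ) + 1)) := by
  obtain ⟨h0, hinj, hstep⟩ := h
  -- work with a function on ℕ
  have key : ∀ m : ℕ, ∀ hm : m + 1 < n + 1,
      ((∀ k : ℕ, ∀ hk : k ≤ m + 1, γ ⟨k, by omega⟩ 0 = (k : ℤ)) ∨
       (∀ k : ℕ, ∀ hk : k ≤ m + 1, γ ⟨k, by omega⟩ 0 = -(k : ℤ))) := by
    intro m
    induction m with
    | zero =>
      intro hm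
      have hs := hstep ⟨0, by omega⟩
      simp only [Finset.univ_unique, Fin.default_eq_zero, Finset.sum_singleton] at hs
      have e0 : γ (Fin.castSucc ⟨0, by omega⟩) 0 = 0 := by
        have : (Fin.castSucc (⟨0, by omega⟩ : Fin n)) = 0 := rfl
        rw [this, h0]; rfl
      rw [e0, sub_zero] at hs
      rcases (abs_eq (by norm_num : (0 : ℤ) ≤ 1)).1 hs with h1 | h1
      · left
        intro k hk
        interval_cases k
        · simpa using congrFun h0 0
        · simpa using h1
      · right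
        intro k hk
        interval_cases k
        · simpa using congrFun h0 0
        · simpa using h1
    | succ m ih =>
      intro hm
      have hs := hstep ⟨m + 1, by omega⟩
      simp only [Finset.univ_unique, Fin.default_eq_zero, Finset.sum_singleton] at hs
      have e1 : (Fin.castSucc (⟨m + 1, by omega⟩ : Fin n)) = ⟨m + 1, by omega⟩ := rfl
      have e2 : (Fin.succ (⟨m + 1, by omega⟩ : Fin n)) = ⟨m + 1 + 1, by omega⟩ := rfl
      rw [e1, e2] at hs
      have hne : γ ⟨m + 1 + 1, by omega⟩ 0 ≠ γ ⟨m, by omega⟩ 0 := by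
        intro he
        have : γ ⟨m + 1 + 1, by omega⟩ = γ ⟨m, by omega⟩ := by
          funext j
          fin_cases j
          exact he
        have := hinj this
        simp only [Fin.mk.injEq] at this
        omega
      rcases ih (by omega) with h1 | h1
      · left
        intro k hk
        rcases Nat.lt_or_ge k (m + 2) with hk' | hk'
        · exact h1 k (by omega)
        · have hkk : k = m + 1 + 1 := by omega
          subst hkk
          have a1 := h1 (m + 1) le_rfl
          have a2 := h1 m (by omega)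
          rw [a1] at hs
          rw [a2] at hne
          rcases (abs_eq (by norm_num : (0 : ℤ) ≤ 1)).1 hs with h2 | h2
          · push_cast at h2 ⊢
            linarith
          · exfalso
            apply hne
            push_cast at h2 ⊢
            linarith
      · right
        intro k hk
        rcases Nat.lt_or_ge k (m + 2) with hk' | hk'
        · exact h1 k (by omega)
        · have hkk : k = m + 1 + 1 := by omega
          subst hkk
          have a1 := h1 (m + 1) le_rfl
          have a2 := h1 m (by omega)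
          rw [a1] at hs
          rw [a2] at hne
          rcases (abs_eq (by norm_num : (0 : ℤ) ≤ 1)).1 hs with h2 | h2
          · exfalso
            apply hne
            push_cast at h2 ⊢
            linarith
          · push_cast at h2 ⊢
            linarith
  rcases Nat.eq_zero_or_pos n with hn | hn
  · subst hn
    left
    intro i
    exact i.elim0
  · have hk := key (n - 1) (by omega)
    rcases hk with h1 | h1
    · left
      intro i
      funext j
      fin_cases j
      have := h1 (i + 1) (by omega)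
      simpa [Fin.succ] using this
    · right
      intro i
      funext j
      fin_cases j
      have := h1 (i + 1) (by omega)
      simpa [Fin.succ] using this

lemma saw_one_exists (n : ℕ) : IsSAW 1 n (fun i => fun _ => ((i : ℕ) : ℤ)) := by
  refine ⟨?_, ?_, ?_⟩
  · funext j; simp
  · intro a b hab
    have := congrFun hab 0
    simp only [Nat.cast_inj] at this
    exact Fin.ext this
  · intro i
    simp

/-- upper bound of the greedy weight in dimension one -/
lemma greedy_one_le (x : (Fin 1 → ℤ) → ℝ) (K : ℝ) (hx : ∀ v, x v ≤ 0) (n : ℕ) (B : ℝ)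
    (h1 : ∑ i ∈ Finset.range n, g K (x (fun _ => (i : ℤ) + 1)) ≤ B)
    (h2 : ∑ i ∈ Finset.range n, g K (x (fun _ => -((i : ℤ) + 1))) ≤ B) :
    greedy 1 x n ≤ B := by
  unfold greedy
  refine csSup_le ⟨_, _, saw_one_exists n, rfl⟩ ?_
  rintro s ⟨γ, hγ, rfl⟩
  rcases saw_one n γ hγ with h | h
  · refine le_trans ?_ h1
    rw [Finset.sum_range (fun i => g K (x (fun _ => (i : ℤ) + 1)))]
    refine Finset.sum_le_sum fun i _ => ?_
    rw [h i]
    exact le_g K _ (hx _)
  · refine le_trans ?_ h2
    rw [Finset.sum_range (fun i => g K (x (fun _ => -((i : ℤ) + 1))))]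
    refine Finset.sum_le_sum fun i _ => ?_
    rw [h i]
    exact le_g K _ (hx _)

theorem main : ∃ (Ω : Type) (_ : MeasurableSpace Ω) (P : Measure Ω) (_ : IsProbabilityMeasure P)
    (X : (Fin 1 → ℤ) → Ω → ℝ), IsIID P 1 X ∧ APlus P 1 (X 0) ∧ AMinus P 1 (X 0) ∧
      ∀ M : ℝ, ¬ ConvergesL1 P 1 X M := by
  obtain ⟨Ω, mΩ, P, X, hmeas, hlaw, hind, hP⟩ := exists_iid (Fin 1 → ℤ) mu
  refine ⟨Ω, mΩ, P, hP, X, ⟨hmeas, hind, fun v => (hlaw v).identDistrib (hlaw 0)⟩, ?_, ?_, ?_⟩
  · -- (A+)
    refine ⟨1, one_pos, ?_⟩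
    have hae : ∀ᵐ ω ∂P, X 0 ω ≤ 0 := by
      have h1 : ∀ᵐ x ∂mu, x ≤ 0 := by
        rw [mu, ae_map_iff f_meas.aemeasurable measurableSet_Iic]
        exact ae_of_all _ f_nonpos
      rw [← (hlaw 0).map_eq] at h1
      exact ae_of_ae_map (hmeas 0).aemeasurable h1
    rw [lintegral_congr_ae (g := fun _ => 0)]
    · simp
    · filter_upwards [hae] with ω hω
      simp [max_eq_right hω]
  · -- (A-)
    unfold AMinus
    have : ∀ t : ℝ, P {ω | X 0 ω < -t} = mu {x | x < -t} := by
      intro t
      rw [← (hlaw 0).map_eq]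
      exact (Measure.map_apply (hmeas 0) (measurableSet_Iio (a := -t))).symm
    simp only [this, mul_one]
    exact mu_aminus
  · intro M hM
    obtain ⟨K, hK0, hK⟩ := exists_trunc (|M| + 2)
    have hae : ∀ᵐ ω ∂P, ∀ v, X v ω ≤ 0 := by
      rw [ae_all_iff]
      intro v
      have h1 : ∀ᵐ x ∂mu, x ≤ 0 := by
        rw [mu, ae_map_iff f_meas.aemeasurable measurableSet_Iic]
        exact ae_of_all _ f_nonpos
      rw [← (hlaw v).map_eq] at h1
      exact ae_of_ae_map (hmeas v).aemeasurable h1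
    -- strong law for an injective enumeration of vertices
    have slln : ∀ e : ℕ → (Fin 1 → ℤ), Function.Injective e →
        ∀ᵐ ω ∂P, Tendsto (fun n : ℕ => (∑ i ∈ Finset.range n, g K (X (e i) ω)) / n) atTop
          (𝓝 (∫ x, g K x ∂mu)) := by
      intro e he
      have hmeas' : ∀ i, Measurable (fun ω => g K (X (e i) ω)) := fun i => (g_meas K).comp (hmeas _)
      have h := strong_law_ae_real (μ := P) (fun i ω => g K (X (e i) ω)) ?_ ?_ ?_
      · have hE : ∫ ω, g K (X (e 0) ω) ∂P = ∫ x, g K x ∂mu := by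
          rw [← (hlaw (e 0)).map_eq, integral_map (hmeas _).aemeasurable
            (g_meas K).aestronglyMeasurable]
        rw [hE] at h
        exact h
      · exact Integrable.of_bound (hmeas' 0).aestronglyMeasurable K
          (ae_of_all _ fun ω => g_bound K hK0 _)
      · intro i j hij
        have := hind.indepFun (he.ne hij)
        exact this.comp (g_meas K) (g_meas K)
      · intro i
        have := (hlaw (e i)).identDistrib (hlaw (e 0))
        exact this.comp (g_meas K)
    have s1 := slln (fun i => fun _ => (i : ℤ) + 1) (by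
      intro a b hab
      have := congrFun hab 0
      simpa using this)
    have s2 := slln (fun i => fun _ => -((i : ℤ) + 1)) (by
      intro a b hab
      have := congrFun hab 0
      simpa using this)
    -- the good events
    set S1 : ℕ → Ω → ℝ := fun n ω => (∑ i ∈ Finset.range n, g K (X (fun _ => (i : ℤ) + 1) ω)) / n
    set S2 : ℕ → Ω → ℝ := fun n ω => (∑ i ∈ Finset.range n, g K (X (fun _ => -((i : ℤ) + 1)) ω)) / n
    have mS1 : ∀ n, Measurable (S1 n) := fun n =>
      (Finset.measurable_fun_sum _ fun i _ => (g_meas K).comp (hmeas _)).div_const _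
    have mS2 : ∀ n, Measurable (S2 n) := fun n =>
      (Finset.measurable_fun_sum _ fun i _ => (g_meas K).comp (hmeas _)).div_const _
    set A : ℕ → Set Ω := fun n => {ω | S1 n ω < -(|M| + 2)} ∩ {ω | S2 n ω < -(|M| + 2)}
    have mA : ∀ n, MeasurableSet (A n) := fun n =>
      (measurableSet_lt (mS1 n) measurable_const).inter (measurableSet_lt (mS2 n) measurable_const)
    have hlow : ∀ n : ℕ, 0 < n → ∀ᵐ ω ∂P, (A n).indicator (fun _ => (1 : ℝ≥0∞)) ω ≤
        ENNReal.ofReal |greedy 1 (fun v => X v ω) n / (n : ℝ) - M| := by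
      intro n hn
      filter_upwards [hae] with ω hω
      by_cases hA : ω ∈ A n
      · rw [indicator_of_mem hA]
        have hn' : (0 : ℝ) < n := by exact_mod_cast hn
        have hb : greedy 1 (fun v => X v ω) n ≤ -(|M| + 2) * n := by
          refine greedy_one_le _ K hω n _ ?_ ?_
          · have := hA.1
            simp only [S1, mem_ofPred_eq] at this
            rw [div_lt_iff₀ hn'] at this
            exact this.le
          · have := hA.2
            simp only [S2, mem_ofPred_eq] at this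
            rw [div_lt_iff₀ hn'] at this
            exact this.le
        have hb2 : greedy 1 (fun v => X v ω) n / n ≤ -(|M| + 2) := by
          rw [div_le_iff₀ hn']
          exact hb
        have hb3 : 1 ≤ |greedy 1 (fun v => X v ω) n / n - M| := by
          rw [le_abs]
          right
          have := neg_abs_le M
          linarith
        rw [← ENNReal.ofReal_one]
        exact ENNReal.ofReal_le_ofReal hb3
      · rw [indicator_of_notMem hA]
        exact zero_le
    have hPA : ∀ n : ℕ, 0 < n → P (A n) ≤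
        ∫⁻ ω, ENNReal.ofReal |greedy 1 (fun v => X v ω) n / (n : ℝ) - M| ∂P := by
      intro n hn
      rw [← lintegral_indicator_one (mA n)]
      exact lintegral_mono_ae (hlow n hn)
    have hev : ∀ᵐ ω ∂P, ∀ᶠ n in atTop, ω ∈ A n := by
      filter_upwards [s1, s2] with ω h1 h2
      exact (h1.eventually_lt_const hK).and (h2.eventually_lt_const hK)
    have hfatou : 1 ≤ liminf (fun n => P (A n)) atTop := by
      have h1 : ∫⁻ ω, liminf (fun n => (A n).indicator (fun _ => (1 : ℝ≥0∞)) ω) atTop ∂P ≤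
          liminf (fun n => ∫⁻ ω, (A n).indicator (fun _ => (1 : ℝ≥0∞)) ω ∂P) atTop :=
        lintegral_liminf_le fun n => measurable_const.indicator (mA n)
      have h2 : ∫⁻ ω, liminf (fun n => (A n).indicator (fun _ => (1 : ℝ≥0∞)) ω) atTop ∂P = 1 := by
        rw [lintegral_congr_ae (g := fun _ => 1)]
        · simp
        · filter_upwards [hev] with ω hω
          rw [liminf_congr (v := fun _ => 1)]
          · simp
          · filter_upwards [hω] with n hn
            rw [indicator_of_mem hn]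
      rw [h2] at h1
      refine h1.trans (le_of_eq ?_)
      congr 1
      funext n
      exact lintegral_indicator_one (mA n)
    have hzero : liminf (fun n => P (A n)) atTop ≤ 0 := by
      calc liminf (fun n => P (A n)) atTop ≤ liminf (fun n : ℕ =>
            ∫⁻ ω, ENNReal.ofReal |greedy 1 (fun v => X v ω) n / (n : ℝ) - M| ∂P) atTop := by
            refine liminf_le_liminf ?_
            filter_upwards [eventually_gt_atTop 0] with n hn
            exact hPA n hn
        _ = 0 := hM.liminf_eq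
    exact absurd (hfatou.trans hzero) (by simp)

end Pool.Agent.Helper82.GreedyOne
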